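import Pool.Agent.Lib.MP_6f5d36_co.Glue7
import Pool.Agent.Lib.MP_6f5d36_co.D7.D000
import Pool.Agent.Lib.MP_6f5d36_co.D7.D001
import Pool.Agent.Lib.MP_6f5d36_co.D7.D002
import Pool.Agent.Lib.MP_6f5d36_co.D7.D003
import Pool.Agent.Lib.MP_6f5d36_co.D7.D004
import Pool.Agent.Lib.MP_6f5d36_co.D7.D005
import Pool.Agent.Lib.MP_6f5d36_co.D7.D006
import Pool.Agent.Lib.MP_6f5d36_co.D7.D007
import Pool.Agent.Lib.MP_6f5d36_co.D7.D008
import Pool.Agent.Lib.MP_6f5d36_co.D7.D009

/-!
# MP_6f5d36_co : level 7 for the ranks 0 to 619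
-/

set_option autoImplicit false
set_option maxRecDepth 100000

namespace CR.D7

theorem k_0 : L7.RK 0 41 := L7.rk_of r_0_41 rfl (by norm_num)
theorem k_41 : L7.RK 41 75 := L7.rk_of r_41_75 rfl (by norm_num)
theorem k_75 : L7.RK 75 111 := L7.rk_of r_75_111 rfl (by norm_num)
theorem k_111 : L7.RK 111 144 := L7.rk_of r_111_144 rfl (by norm_num)
theorem k_144 : L7.RK 144 181 := L7.rk_of r_144_181 rfl (by norm_num)
theorem k_181 : L7.RK 181 213 := L7.rk_of r_181_213 rfl (by norm_num)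
theorem k_213 : L7.RK 213 246 := L7.rk_of r_213_246 rfl (by norm_num)
theorem k_246 : L7.RK 246 272 := L7.rk_of r_246_272 rfl (by norm_num)
theorem k_272 : L7.RK 272 306 := L7.rk_of r_272_306 rfl (by norm_num)
theorem k_306 : L7.RK 306 341 := L7.rk_of r_306_341 rfl (by norm_num)
theorem k_341 : L7.RK 341 373 := L7.rk_of r_341_373 rfl (by norm_num)
theorem k_373 : L7.RK 373 405 := L7.rk_of r_373_405 rfl (by norm_num)
theorem k_405 : L7.RK 405 434 := L7.rk_of r_405_434 rfl (by norm_num)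
theorem k_434 : L7.RK 434 463 := L7.rk_of r_434_463 rfl (by norm_num)
theorem k_463 : L7.RK 463 491 := L7.rk_of r_463_491 rfl (by norm_num)
theorem k_491 : L7.RK 491 518 := L7.rk_of r_491_518 rfl (by norm_num)
theorem k_518 : L7.RK 518 545 := L7.rk_of r_518_545 rfl (by norm_num)
theorem k_545 : L7.RK 545 570 := L7.rk_of r_545_570 rfl (by norm_num)
theorem k_570 : L7.RK 570 595 := L7.rk_of r_570_595 rfl (by norm_num)
theorem k_595 : L7.RK 595 620 := L7.rk_of r_595_620 rfl (by norm_num)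

theorem g_0 : L7.RK 0 620 :=
  k_0.trans (k_41.trans (k_75.trans (k_111.trans (k_144.trans (k_181.trans (k_213.trans
  (k_246.trans (k_272.trans (k_306.trans (k_341.trans (k_373.trans (k_405.trans (k_434.trans
  (k_463.trans (k_491.trans (k_518.trans (k_545.trans (k_570.trans k_595))))))))))))))))))

end CR.D7
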