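import Pool.Agent.Lib.MP_6f5d36_co.Glue7
import Pool.Agent.Lib.MP_6f5d36_co.D7.D010
import Pool.Agent.Lib.MP_6f5d36_co.D7.D011
import Pool.Agent.Lib.MP_6f5d36_co.D7.D012
import Pool.Agent.Lib.MP_6f5d36_co.D7.D013
import Pool.Agent.Lib.MP_6f5d36_co.D7.D014
import Pool.Agent.Lib.MP_6f5d36_co.D7.D015
import Pool.Agent.Lib.MP_6f5d36_co.D7.D016
import Pool.Agent.Lib.MP_6f5d36_co.D7.D017
import Pool.Agent.Lib.MP_6f5d36_co.D7.D018
import Pool.Agent.Lib.MP_6f5d36_co.D7.D019

/-!
# MP_6f5d36_co : level 7 for the ranks 620 to 1035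
-/

set_option autoImplicit false
set_option maxRecDepth 100000

namespace CR.D7

theorem k_620 : L7.RK 620 643 := L7.rk_of r_620_643 rfl (by norm_num)
theorem k_643 : L7.RK 643 666 := L7.rk_of r_643_666 rfl (by norm_num)
theorem k_666 : L7.RK 666 690 := L7.rk_of r_666_690 rfl (by norm_num)
theorem k_690 : L7.RK 690 713 := L7.rk_of r_690_713 rfl (by norm_num)
theorem k_713 : L7.RK 713 735 := L7.rk_of r_713_735 rfl (by norm_num)
theorem k_735 : L7.RK 735 757 := L7.rk_of r_735_757 rfl (by norm_num)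
theorem k_757 : L7.RK 757 779 := L7.rk_of r_757_779 rfl (by norm_num)
theorem k_779 : L7.RK 779 801 := L7.rk_of r_779_801 rfl (by norm_num)
theorem k_801 : L7.RK 801 821 := L7.rk_of r_801_821 rfl (by norm_num)
theorem k_821 : L7.RK 821 842 := L7.rk_of r_821_842 rfl (by norm_num)
theorem k_842 : L7.RK 842 863 := L7.rk_of r_842_863 rfl (by norm_num)
theorem k_863 : L7.RK 863 883 := L7.rk_of r_863_883 rfl (by norm_num)
theorem k_883 : L7.RK 883 903 := L7.rk_of r_883_903 rfl (by norm_num)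
theorem k_903 : L7.RK 903 922 := L7.rk_of r_903_922 rfl (by norm_num)
theorem k_922 : L7.RK 922 941 := L7.rk_of r_922_941 rfl (by norm_num)
theorem k_941 : L7.RK 941 960 := L7.rk_of r_941_960 rfl (by norm_num)
theorem k_960 : L7.RK 960 980 := L7.rk_of r_960_980 rfl (by norm_num)
theorem k_980 : L7.RK 980 1000 := L7.rk_of r_980_1000 rfl (by norm_num)
theorem k_1000 : L7.RK 1000 1018 := L7.rk_of r_1000_1018 rfl (by norm_num)
theorem k_1018 : L7.RK 1018 1036 := L7.rk_of r_1018_1036 rfl (by norm_num)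

theorem g_620 : L7.RK 620 1036 :=
  k_620.trans (k_643.trans (k_666.trans (k_690.trans (k_713.trans (k_735.trans (k_757.trans
  (k_779.trans (k_801.trans (k_821.trans (k_842.trans (k_863.trans (k_883.trans (k_903.trans
  (k_922.trans (k_941.trans (k_960.trans (k_980.trans (k_1000.trans k_1018))))))))))))))))))

end CR.D7
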