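import Pool.Agent.Lib.MP_6f5d36_co.Glue7
import Pool.Agent.Lib.MP_6f5d36_co.D7.D020
import Pool.Agent.Lib.MP_6f5d36_co.D7.D021
import Pool.Agent.Lib.MP_6f5d36_co.D7.D022
import Pool.Agent.Lib.MP_6f5d36_co.D7.D023
import Pool.Agent.Lib.MP_6f5d36_co.D7.D024
import Pool.Agent.Lib.MP_6f5d36_co.D7.D025
import Pool.Agent.Lib.MP_6f5d36_co.D7.D026
import Pool.Agent.Lib.MP_6f5d36_co.D7.D027
import Pool.Agent.Lib.MP_6f5d36_co.D7.D028
import Pool.Agent.Lib.MP_6f5d36_co.D7.D029

/-!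
# MP_6f5d36_co : level 7 for the ranks 1036 to 1371
-/

set_option autoImplicit false
set_option maxRecDepth 100000

namespace CR.D7

theorem k_1036 : L7.RK 1036 1054 := L7.rk_of r_1036_1054 rfl (by norm_num)
theorem k_1054 : L7.RK 1054 1073 := L7.rk_of r_1054_1073 rfl (by norm_num)
theorem k_1073 : L7.RK 1073 1090 := L7.rk_of r_1073_1090 rfl (by norm_num)
theorem k_1090 : L7.RK 1090 1107 := L7.rk_of r_1090_1107 rfl (by norm_num)
theorem k_1107 : L7.RK 1107 1125 := L7.rk_of r_1107_1125 rfl (by norm_num)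
theorem k_1125 : L7.RK 1125 1143 := L7.rk_of r_1125_1143 rfl (by norm_num)
theorem k_1143 : L7.RK 1143 1160 := L7.rk_of r_1143_1160 rfl (by norm_num)
theorem k_1160 : L7.RK 1160 1177 := L7.rk_of r_1160_1177 rfl (by norm_num)
theorem k_1177 : L7.RK 1177 1194 := L7.rk_of r_1177_1194 rfl (by norm_num)
theorem k_1194 : L7.RK 1194 1210 := L7.rk_of r_1194_1210 rfl (by norm_num)
theorem k_1210 : L7.RK 1210 1226 := L7.rk_of r_1210_1226 rfl (by norm_num)
theorem k_1226 : L7.RK 1226 1243 := L7.rk_of r_1226_1243 rfl (by norm_num)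
theorem k_1243 : L7.RK 1243 1260 := L7.rk_of r_1243_1260 rfl (by norm_num)
theorem k_1260 : L7.RK 1260 1276 := L7.rk_of r_1260_1276 rfl (by norm_num)
theorem k_1276 : L7.RK 1276 1292 := L7.rk_of r_1276_1292 rfl (by norm_num)
theorem k_1292 : L7.RK 1292 1308 := L7.rk_of r_1292_1308 rfl (by norm_num)
theorem k_1308 : L7.RK 1308 1324 := L7.rk_of r_1308_1324 rfl (by norm_num)
theorem k_1324 : L7.RK 1324 1340 := L7.rk_of r_1324_1340 rfl (by norm_num)
theorem k_1340 : L7.RK 1340 1356 := L7.rk_of r_1340_1356 rfl (by norm_num)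
theorem k_1356 : L7.RK 1356 1372 := L7.rk_of r_1356_1372 rfl (by norm_num)

theorem g_1036 : L7.RK 1036 1372 :=
  k_1036.trans (k_1054.trans (k_1073.trans (k_1090.trans (k_1107.trans (k_1125.trans
  (k_1143.trans (k_1160.trans (k_1177.trans (k_1194.trans (k_1210.trans (k_1226.trans
  (k_1243.trans (k_1260.trans (k_1276.trans (k_1292.trans (k_1308.trans (k_1324.trans
  (k_1340.trans k_1356))))))))))))))))))

end CR.D7
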