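import Pool.Agent.Lib.MP_6f5d36_co.Glue7
import Pool.Agent.Lib.MP_6f5d36_co.D7.D030
import Pool.Agent.Lib.MP_6f5d36_co.D7.D031
import Pool.Agent.Lib.MP_6f5d36_co.D7.D032
import Pool.Agent.Lib.MP_6f5d36_co.D7.D033
import Pool.Agent.Lib.MP_6f5d36_co.D7.D034
import Pool.Agent.Lib.MP_6f5d36_co.D7.D035
import Pool.Agent.Lib.MP_6f5d36_co.D7.D036
import Pool.Agent.Lib.MP_6f5d36_co.D7.D037
import Pool.Agent.Lib.MP_6f5d36_co.D7.D038
import Pool.Agent.Lib.MP_6f5d36_co.D7.D039

/-!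
# MP_6f5d36_co : level 7 for the ranks 1372 to 1666
-/

set_option autoImplicit false
set_option maxRecDepth 100000

namespace CR.D7

theorem k_1372 : L7.RK 1372 1388 := L7.rk_of r_1372_1388 rfl (by norm_num)
theorem k_1388 : L7.RK 1388 1404 := L7.rk_of r_1388_1404 rfl (by norm_num)
theorem k_1404 : L7.RK 1404 1419 := L7.rk_of r_1404_1419 rfl (by norm_num)
theorem k_1419 : L7.RK 1419 1434 := L7.rk_of r_1419_1434 rfl (by norm_num)
theorem k_1434 : L7.RK 1434 1449 := L7.rk_of r_1434_1449 rfl (by norm_num)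
theorem k_1449 : L7.RK 1449 1464 := L7.rk_of r_1449_1464 rfl (by norm_num)
theorem k_1464 : L7.RK 1464 1479 := L7.rk_of r_1464_1479 rfl (by norm_num)
theorem k_1479 : L7.RK 1479 1494 := L7.rk_of r_1479_1494 rfl (by norm_num)
theorem k_1494 : L7.RK 1494 1509 := L7.rk_of r_1494_1509 rfl (by norm_num)
theorem k_1509 : L7.RK 1509 1523 := L7.rk_of r_1509_1523 rfl (by norm_num)
theorem k_1523 : L7.RK 1523 1537 := L7.rk_of r_1523_1537 rfl (by norm_num)
theorem k_1537 : L7.RK 1537 1551 := L7.rk_of r_1537_1551 rfl (by norm_num)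
theorem k_1551 : L7.RK 1551 1567 := L7.rk_of r_1551_1567 rfl (by norm_num)
theorem k_1567 : L7.RK 1567 1583 := L7.rk_of r_1567_1583 rfl (by norm_num)
theorem k_1583 : L7.RK 1583 1597 := L7.rk_of r_1583_1597 rfl (by norm_num)
theorem k_1597 : L7.RK 1597 1611 := L7.rk_of r_1597_1611 rfl (by norm_num)
theorem k_1611 : L7.RK 1611 1625 := L7.rk_of r_1611_1625 rfl (by norm_num)
theorem k_1625 : L7.RK 1625 1639 := L7.rk_of r_1625_1639 rfl (by norm_num)
theorem k_1639 : L7.RK 1639 1653 := L7.rk_of r_1639_1653 rfl (by norm_num)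
theorem k_1653 : L7.RK 1653 1667 := L7.rk_of r_1653_1667 rfl (by norm_num)

theorem g_1372 : L7.RK 1372 1667 :=
  k_1372.trans (k_1388.trans (k_1404.trans (k_1419.trans (k_1434.trans (k_1449.trans
  (k_1464.trans (k_1479.trans (k_1494.trans (k_1509.trans (k_1523.trans (k_1537.trans
  (k_1551.trans (k_1567.trans (k_1583.trans (k_1597.trans (k_1611.trans (k_1625.trans
  (k_1639.trans k_1653))))))))))))))))))

end CR.D7
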