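import Pool.Agent.Lib.MP_6f5d36_co.Glue7
import Pool.Agent.Lib.MP_6f5d36_co.D7.D040
import Pool.Agent.Lib.MP_6f5d36_co.D7.D041
import Pool.Agent.Lib.MP_6f5d36_co.D7.D042
import Pool.Agent.Lib.MP_6f5d36_co.D7.D043
import Pool.Agent.Lib.MP_6f5d36_co.D7.D044
import Pool.Agent.Lib.MP_6f5d36_co.D7.D045
import Pool.Agent.Lib.MP_6f5d36_co.D7.D046
import Pool.Agent.Lib.MP_6f5d36_co.D7.D047
import Pool.Agent.Lib.MP_6f5d36_co.D7.D048
import Pool.Agent.Lib.MP_6f5d36_co.D7.D049

/-!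
# MP_6f5d36_co : level 7 for the ranks 1667 to 1965
-/

set_option autoImplicit false
set_option maxRecDepth 100000

namespace CR.D7

theorem k_1667 : L7.RK 1667 1681 := L7.rk_of r_1667_1681 rfl (by norm_num)
theorem k_1681 : L7.RK 1681 1695 := L7.rk_of r_1681_1695 rfl (by norm_num)
theorem k_1695 : L7.RK 1695 1709 := L7.rk_of r_1695_1709 rfl (by norm_num)
theorem k_1709 : L7.RK 1709 1724 := L7.rk_of r_1709_1724 rfl (by norm_num)
theorem k_1724 : L7.RK 1724 1738 := L7.rk_of r_1724_1738 rfl (by norm_num)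
theorem k_1738 : L7.RK 1738 1753 := L7.rk_of r_1738_1753 rfl (by norm_num)
theorem k_1753 : L7.RK 1753 1767 := L7.rk_of r_1753_1767 rfl (by norm_num)
theorem k_1767 : L7.RK 1767 1781 := L7.rk_of r_1767_1781 rfl (by norm_num)
theorem k_1781 : L7.RK 1781 1795 := L7.rk_of r_1781_1795 rfl (by norm_num)
theorem k_1795 : L7.RK 1795 1808 := L7.rk_of r_1795_1808 rfl (by norm_num)
theorem k_1808 : L7.RK 1808 1821 := L7.rk_of r_1808_1821 rfl (by norm_num)
theorem k_1821 : L7.RK 1821 1834 := L7.rk_of r_1821_1834 rfl (by norm_num)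
theorem k_1834 : L7.RK 1834 1848 := L7.rk_of r_1834_1848 rfl (by norm_num)
theorem k_1848 : L7.RK 1848 1861 := L7.rk_of r_1848_1861 rfl (by norm_num)
theorem k_1861 : L7.RK 1861 1874 := L7.rk_of r_1861_1874 rfl (by norm_num)
theorem k_1874 : L7.RK 1874 1888 := L7.rk_of r_1874_1888 rfl (by norm_num)
theorem k_1888 : L7.RK 1888 1901 := L7.rk_of r_1888_1901 rfl (by norm_num)
theorem k_1901 : L7.RK 1901 1914 := L7.rk_of r_1901_1914 rfl (by norm_num)
theorem k_1914 : L7.RK 1914 1927 := L7.rk_of r_1914_1927 rfl (by norm_num)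
theorem k_1927 : L7.RK 1927 1940 := L7.rk_of r_1927_1940 rfl (by norm_num)
theorem k_1940 : L7.RK 1940 1953 := L7.rk_of r_1940_1953 rfl (by norm_num)
theorem k_1953 : L7.RK 1953 1966 := L7.rk_of r_1953_1966 rfl (by norm_num)

theorem g_1667 : L7.RK 1667 1966 :=
  k_1667.trans (k_1681.trans (k_1695.trans (k_1709.trans (k_1724.trans (k_1738.trans
  (k_1753.trans (k_1767.trans (k_1781.trans (k_1795.trans (k_1808.trans (k_1821.trans
  (k_1834.trans (k_1848.trans (k_1861.trans (k_1874.trans (k_1888.trans (k_1901.trans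
  (k_1914.trans (k_1927.trans (k_1940.trans k_1953))))))))))))))))))))

end CR.D7
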