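import Pool.Agent.Lib.MP_6f5d36_co.Glue7
import Pool.Agent.Lib.MP_6f5d36_co.D7.D050
import Pool.Agent.Lib.MP_6f5d36_co.D7.D051
import Pool.Agent.Lib.MP_6f5d36_co.D7.D052
import Pool.Agent.Lib.MP_6f5d36_co.D7.D053
import Pool.Agent.Lib.MP_6f5d36_co.D7.D054
import Pool.Agent.Lib.MP_6f5d36_co.D7.D055
import Pool.Agent.Lib.MP_6f5d36_co.D7.D056
import Pool.Agent.Lib.MP_6f5d36_co.D7.D057
import Pool.Agent.Lib.MP_6f5d36_co.D7.D058
import Pool.Agent.Lib.MP_6f5d36_co.D7.D059

/-!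
# MP_6f5d36_co : level 7 for the ranks 1966 to 2289
-/

set_option autoImplicit false
set_option maxRecDepth 100000

namespace CR.D7

theorem k_1966 : L7.RK 1966 1978 := L7.rk_of r_1966_1978 rfl (by norm_num)
theorem k_1978 : L7.RK 1978 1991 := L7.rk_of r_1978_1991 rfl (by norm_num)
theorem k_1991 : L7.RK 1991 2004 := L7.rk_of r_1991_2004 rfl (by norm_num)
theorem k_2004 : L7.RK 2004 2017 := L7.rk_of r_2004_2017 rfl (by norm_num)
theorem k_2017 : L7.RK 2017 2029 := L7.rk_of r_2017_2029 rfl (by norm_num)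
theorem k_2029 : L7.RK 2029 2042 := L7.rk_of r_2029_2042 rfl (by norm_num)
theorem k_2042 : L7.RK 2042 2057 := L7.rk_of r_2042_2057 rfl (by norm_num)
theorem k_2057 : L7.RK 2057 2069 := L7.rk_of r_2057_2069 rfl (by norm_num)
theorem k_2069 : L7.RK 2069 2081 := L7.rk_of r_2069_2081 rfl (by norm_num)
theorem k_2081 : L7.RK 2081 2093 := L7.rk_of r_2081_2093 rfl (by norm_num)
theorem k_2093 : L7.RK 2093 2106 := L7.rk_of r_2093_2106 rfl (by norm_num)
theorem k_2106 : L7.RK 2106 2118 := L7.rk_of r_2106_2118 rfl (by norm_num)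
theorem k_2118 : L7.RK 2118 2130 := L7.rk_of r_2118_2130 rfl (by norm_num)
theorem k_2130 : L7.RK 2130 2143 := L7.rk_of r_2130_2143 rfl (by norm_num)
theorem k_2143 : L7.RK 2143 2155 := L7.rk_of r_2143_2155 rfl (by norm_num)
theorem k_2155 : L7.RK 2155 2167 := L7.rk_of r_2155_2167 rfl (by norm_num)
theorem k_2167 : L7.RK 2167 2180 := L7.rk_of r_2167_2180 rfl (by norm_num)
theorem k_2180 : L7.RK 2180 2192 := L7.rk_of r_2180_2192 rfl (by norm_num)
theorem k_2192 : L7.RK 2192 2204 := L7.rk_of r_2192_2204 rfl (by norm_num)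
theorem k_2204 : L7.RK 2204 2216 := L7.rk_of r_2204_2216 rfl (by norm_num)
theorem k_2216 : L7.RK 2216 2228 := L7.rk_of r_2216_2228 rfl (by norm_num)
theorem k_2228 : L7.RK 2228 2240 := L7.rk_of r_2228_2240 rfl (by norm_num)
theorem k_2240 : L7.RK 2240 2253 := L7.rk_of r_2240_2253 rfl (by norm_num)
theorem k_2253 : L7.RK 2253 2265 := L7.rk_of r_2253_2265 rfl (by norm_num)
theorem k_2265 : L7.RK 2265 2277 := L7.rk_of r_2265_2277 rfl (by norm_num)
theorem k_2277 : L7.RK 2277 2290 := L7.rk_of r_2277_2290 rfl (by norm_num)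

theorem g_1966 : L7.RK 1966 2290 :=
  k_1966.trans (k_1978.trans (k_1991.trans (k_2004.trans (k_2017.trans (k_2029.trans
  (k_2042.trans (k_2057.trans (k_2069.trans (k_2081.trans (k_2093.trans (k_2106.trans
  (k_2118.trans (k_2130.trans (k_2143.trans (k_2155.trans (k_2167.trans (k_2180.trans
  (k_2192.trans (k_2204.trans (k_2216.trans (k_2228.trans (k_2240.trans (k_2253.trans
  (k_2265.trans k_2277))))))))))))))))))))))))

end CR.D7
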