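import Pool.Agent.Lib.MP_6f5d36_co.Glue7
import Pool.Agent.Lib.MP_6f5d36_co.D7.D060
import Pool.Agent.Lib.MP_6f5d36_co.D7.D061
import Pool.Agent.Lib.MP_6f5d36_co.D7.D062
import Pool.Agent.Lib.MP_6f5d36_co.D7.D063
import Pool.Agent.Lib.MP_6f5d36_co.D7.D064
import Pool.Agent.Lib.MP_6f5d36_co.D7.D065
import Pool.Agent.Lib.MP_6f5d36_co.D7.D066
import Pool.Agent.Lib.MP_6f5d36_co.D7.D067
import Pool.Agent.Lib.MP_6f5d36_co.D7.D068
import Pool.Agent.Lib.MP_6f5d36_co.D7.D069

/-!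
# MP_6f5d36_co : level 7 for the ranks 2290 to 2624
-/

set_option autoImplicit false
set_option maxRecDepth 100000

namespace CR.D7

theorem k_2290 : L7.RK 2290 2302 := L7.rk_of r_2290_2302 rfl (by norm_num)
theorem k_2302 : L7.RK 2302 2319 := L7.rk_of r_2302_2319 rfl (by norm_num)
theorem k_2319 : L7.RK 2319 2332 := L7.rk_of r_2319_2332 rfl (by norm_num)
theorem k_2332 : L7.RK 2332 2344 := L7.rk_of r_2332_2344 rfl (by norm_num)
theorem k_2344 : L7.RK 2344 2356 := L7.rk_of r_2344_2356 rfl (by norm_num)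
theorem k_2356 : L7.RK 2356 2368 := L7.rk_of r_2356_2368 rfl (by norm_num)
theorem k_2368 : L7.RK 2368 2381 := L7.rk_of r_2368_2381 rfl (by norm_num)
theorem k_2381 : L7.RK 2381 2393 := L7.rk_of r_2381_2393 rfl (by norm_num)
theorem k_2393 : L7.RK 2393 2405 := L7.rk_of r_2393_2405 rfl (by norm_num)
theorem k_2405 : L7.RK 2405 2417 := L7.rk_of r_2405_2417 rfl (by norm_num)
theorem k_2417 : L7.RK 2417 2429 := L7.rk_of r_2417_2429 rfl (by norm_num)
theorem k_2429 : L7.RK 2429 2441 := L7.rk_of r_2429_2441 rfl (by norm_num)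
theorem k_2441 : L7.RK 2441 2453 := L7.rk_of r_2441_2453 rfl (by norm_num)
theorem k_2453 : L7.RK 2453 2465 := L7.rk_of r_2453_2465 rfl (by norm_num)
theorem k_2465 : L7.RK 2465 2478 := L7.rk_of r_2465_2478 rfl (by norm_num)
theorem k_2478 : L7.RK 2478 2490 := L7.rk_of r_2478_2490 rfl (by norm_num)
theorem k_2490 : L7.RK 2490 2502 := L7.rk_of r_2490_2502 rfl (by norm_num)
theorem k_2502 : L7.RK 2502 2514 := L7.rk_of r_2502_2514 rfl (by norm_num)
theorem k_2514 : L7.RK 2514 2531 := L7.rk_of r_2514_2531 rfl (by norm_num)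
theorem k_2531 : L7.RK 2531 2543 := L7.rk_of r_2531_2543 rfl (by norm_num)
theorem k_2543 : L7.RK 2543 2554 := L7.rk_of r_2543_2554 rfl (by norm_num)
theorem k_2554 : L7.RK 2554 2566 := L7.rk_of r_2554_2566 rfl (by norm_num)
theorem k_2566 : L7.RK 2566 2578 := L7.rk_of r_2566_2578 rfl (by norm_num)
theorem k_2578 : L7.RK 2578 2590 := L7.rk_of r_2578_2590 rfl (by norm_num)
theorem k_2590 : L7.RK 2590 2601 := L7.rk_of r_2590_2601 rfl (by norm_num)
theorem k_2601 : L7.RK 2601 2613 := L7.rk_of r_2601_2613 rfl (by norm_num)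
theorem k_2613 : L7.RK 2613 2625 := L7.rk_of r_2613_2625 rfl (by norm_num)

theorem g_2290 : L7.RK 2290 2625 :=
  k_2290.trans (k_2302.trans (k_2319.trans (k_2332.trans (k_2344.trans (k_2356.trans
  (k_2368.trans (k_2381.trans (k_2393.trans (k_2405.trans (k_2417.trans (k_2429.trans
  (k_2441.trans (k_2453.trans (k_2465.trans (k_2478.trans (k_2490.trans (k_2502.trans
  (k_2514.trans (k_2531.trans (k_2543.trans (k_2554.trans (k_2566.trans (k_2578.trans
  (k_2590.trans (k_2601.trans k_2613)))))))))))))))))))))))))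

end CR.D7
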