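import Pool.Agent.Lib.MP_6f5d36_co.Glue7
import Pool.Agent.Lib.MP_6f5d36_co.D7.D070
import Pool.Agent.Lib.MP_6f5d36_co.D7.D071
import Pool.Agent.Lib.MP_6f5d36_co.D7.D072
import Pool.Agent.Lib.MP_6f5d36_co.D7.D073
import Pool.Agent.Lib.MP_6f5d36_co.D7.D074
import Pool.Agent.Lib.MP_6f5d36_co.D7.D075
import Pool.Agent.Lib.MP_6f5d36_co.D7.D076
import Pool.Agent.Lib.MP_6f5d36_co.D7.D077
import Pool.Agent.Lib.MP_6f5d36_co.D7.D078
import Pool.Agent.Lib.MP_6f5d36_co.D7.D079

/-!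
# MP_6f5d36_co : level 7 for the ranks 2625 to 2978
-/

set_option autoImplicit false
set_option maxRecDepth 100000

namespace CR.D7

theorem k_2625 : L7.RK 2625 2637 := L7.rk_of r_2625_2637 rfl (by norm_num)
theorem k_2637 : L7.RK 2637 2649 := L7.rk_of r_2637_2649 rfl (by norm_num)
theorem k_2649 : L7.RK 2649 2660 := L7.rk_of r_2649_2660 rfl (by norm_num)
theorem k_2660 : L7.RK 2660 2671 := L7.rk_of r_2660_2671 rfl (by norm_num)
theorem k_2671 : L7.RK 2671 2683 := L7.rk_of r_2671_2683 rfl (by norm_num)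
theorem k_2683 : L7.RK 2683 2697 := L7.rk_of r_2683_2697 rfl (by norm_num)
theorem k_2697 : L7.RK 2697 2709 := L7.rk_of r_2697_2709 rfl (by norm_num)
theorem k_2709 : L7.RK 2709 2720 := L7.rk_of r_2709_2720 rfl (by norm_num)
theorem k_2720 : L7.RK 2720 2731 := L7.rk_of r_2720_2731 rfl (by norm_num)
theorem k_2731 : L7.RK 2731 2742 := L7.rk_of r_2731_2742 rfl (by norm_num)
theorem k_2742 : L7.RK 2742 2754 := L7.rk_of r_2742_2754 rfl (by norm_num)
theorem k_2754 : L7.RK 2754 2766 := L7.rk_of r_2754_2766 rfl (by norm_num)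
theorem k_2766 : L7.RK 2766 2778 := L7.rk_of r_2766_2778 rfl (by norm_num)
theorem k_2778 : L7.RK 2778 2789 := L7.rk_of r_2778_2789 rfl (by norm_num)
theorem k_2789 : L7.RK 2789 2801 := L7.rk_of r_2789_2801 rfl (by norm_num)
theorem k_2801 : L7.RK 2801 2812 := L7.rk_of r_2801_2812 rfl (by norm_num)
theorem k_2812 : L7.RK 2812 2826 := L7.rk_of r_2812_2826 rfl (by norm_num)
theorem k_2826 : L7.RK 2826 2838 := L7.rk_of r_2826_2838 rfl (by norm_num)
theorem k_2838 : L7.RK 2838 2850 := L7.rk_of r_2838_2850 rfl (by norm_num)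
theorem k_2850 : L7.RK 2850 2862 := L7.rk_of r_2850_2862 rfl (by norm_num)
theorem k_2862 : L7.RK 2862 2873 := L7.rk_of r_2862_2873 rfl (by norm_num)
theorem k_2873 : L7.RK 2873 2885 := L7.rk_of r_2873_2885 rfl (by norm_num)
theorem k_2885 : L7.RK 2885 2896 := L7.rk_of r_2885_2896 rfl (by norm_num)
theorem k_2896 : L7.RK 2896 2908 := L7.rk_of r_2896_2908 rfl (by norm_num)
theorem k_2908 : L7.RK 2908 2919 := L7.rk_of r_2908_2919 rfl (by norm_num)
theorem k_2919 : L7.RK 2919 2930 := L7.rk_of r_2919_2930 rfl (by norm_num)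
theorem k_2930 : L7.RK 2930 2942 := L7.rk_of r_2930_2942 rfl (by norm_num)
theorem k_2942 : L7.RK 2942 2953 := L7.rk_of r_2942_2953 rfl (by norm_num)
theorem k_2953 : L7.RK 2953 2966 := L7.rk_of r_2953_2966 rfl (by norm_num)
theorem k_2966 : L7.RK 2966 2979 := L7.rk_of r_2966_2979 rfl (by norm_num)

theorem g_2625 : L7.RK 2625 2979 :=
  k_2625.trans (k_2637.trans (k_2649.trans (k_2660.trans (k_2671.trans (k_2683.trans
  (k_2697.trans (k_2709.trans (k_2720.trans (k_2731.trans (k_2742.trans (k_2754.trans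
  (k_2766.trans (k_2778.trans (k_2789.trans (k_2801.trans (k_2812.trans (k_2826.trans
  (k_2838.trans (k_2850.trans (k_2862.trans (k_2873.trans (k_2885.trans (k_2896.trans
  (k_2908.trans (k_2919.trans (k_2930.trans (k_2942.trans (k_2953.trans
  k_2966))))))))))))))))))))))))))))

end CR.D7
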