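import Pool.Agent.Lib.MP_6f5d36_co.Glue7
import Pool.Agent.Lib.MP_6f5d36_co.D7.D080
import Pool.Agent.Lib.MP_6f5d36_co.D7.D081
import Pool.Agent.Lib.MP_6f5d36_co.D7.D082
import Pool.Agent.Lib.MP_6f5d36_co.D7.D083
import Pool.Agent.Lib.MP_6f5d36_co.D7.D084
import Pool.Agent.Lib.MP_6f5d36_co.D7.D085
import Pool.Agent.Lib.MP_6f5d36_co.D7.D086
import Pool.Agent.Lib.MP_6f5d36_co.D7.D087
import Pool.Agent.Lib.MP_6f5d36_co.D7.D088
import Pool.Agent.Lib.MP_6f5d36_co.D7.D089

/-!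
# MP_6f5d36_co : level 7 for the ranks 2979 to 3318
-/

set_option autoImplicit false
set_option maxRecDepth 100000

namespace CR.D7

theorem k_2979 : L7.RK 2979 2990 := L7.rk_of r_2979_2990 rfl (by norm_num)
theorem k_2990 : L7.RK 2990 3001 := L7.rk_of r_2990_3001 rfl (by norm_num)
theorem k_3001 : L7.RK 3001 3012 := L7.rk_of r_3001_3012 rfl (by norm_num)
theorem k_3012 : L7.RK 3012 3024 := L7.rk_of r_3012_3024 rfl (by norm_num)
theorem k_3024 : L7.RK 3024 3036 := L7.rk_of r_3024_3036 rfl (by norm_num)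
theorem k_3036 : L7.RK 3036 3048 := L7.rk_of r_3036_3048 rfl (by norm_num)
theorem k_3048 : L7.RK 3048 3059 := L7.rk_of r_3048_3059 rfl (by norm_num)
theorem k_3059 : L7.RK 3059 3072 := L7.rk_of r_3059_3072 rfl (by norm_num)
theorem k_3072 : L7.RK 3072 3083 := L7.rk_of r_3072_3083 rfl (by norm_num)
theorem k_3083 : L7.RK 3083 3094 := L7.rk_of r_3083_3094 rfl (by norm_num)
theorem k_3094 : L7.RK 3094 3105 := L7.rk_of r_3094_3105 rfl (by norm_num)
theorem k_3105 : L7.RK 3105 3116 := L7.rk_of r_3105_3116 rfl (by norm_num)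
theorem k_3116 : L7.RK 3116 3127 := L7.rk_of r_3116_3127 rfl (by norm_num)
theorem k_3127 : L7.RK 3127 3138 := L7.rk_of r_3127_3138 rfl (by norm_num)
theorem k_3138 : L7.RK 3138 3149 := L7.rk_of r_3138_3149 rfl (by norm_num)
theorem k_3149 : L7.RK 3149 3160 := L7.rk_of r_3149_3160 rfl (by norm_num)
theorem k_3160 : L7.RK 3160 3171 := L7.rk_of r_3160_3171 rfl (by norm_num)
theorem k_3171 : L7.RK 3171 3183 := L7.rk_of r_3171_3183 rfl (by norm_num)
theorem k_3183 : L7.RK 3183 3196 := L7.rk_of r_3183_3196 rfl (by norm_num)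
theorem k_3196 : L7.RK 3196 3207 := L7.rk_of r_3196_3207 rfl (by norm_num)
theorem k_3207 : L7.RK 3207 3218 := L7.rk_of r_3207_3218 rfl (by norm_num)
theorem k_3218 : L7.RK 3218 3230 := L7.rk_of r_3218_3230 rfl (by norm_num)
theorem k_3230 : L7.RK 3230 3241 := L7.rk_of r_3230_3241 rfl (by norm_num)
theorem k_3241 : L7.RK 3241 3253 := L7.rk_of r_3241_3253 rfl (by norm_num)
theorem k_3253 : L7.RK 3253 3264 := L7.rk_of r_3253_3264 rfl (by norm_num)
theorem k_3264 : L7.RK 3264 3275 := L7.rk_of r_3264_3275 rfl (by norm_num)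
theorem k_3275 : L7.RK 3275 3286 := L7.rk_of r_3275_3286 rfl (by norm_num)
theorem k_3286 : L7.RK 3286 3297 := L7.rk_of r_3286_3297 rfl (by norm_num)
theorem k_3297 : L7.RK 3297 3308 := L7.rk_of r_3297_3308 rfl (by norm_num)
theorem k_3308 : L7.RK 3308 3319 := L7.rk_of r_3308_3319 rfl (by norm_num)

theorem g_2979 : L7.RK 2979 3319 :=
  k_2979.trans (k_2990.trans (k_3001.trans (k_3012.trans (k_3024.trans (k_3036.trans
  (k_3048.trans (k_3059.trans (k_3072.trans (k_3083.trans (k_3094.trans (k_3105.trans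
  (k_3116.trans (k_3127.trans (k_3138.trans (k_3149.trans (k_3160.trans (k_3171.trans
  (k_3183.trans (k_3196.trans (k_3207.trans (k_3218.trans (k_3230.trans (k_3241.trans
  (k_3253.trans (k_3264.trans (k_3275.trans (k_3286.trans (k_3297.trans
  k_3308))))))))))))))))))))))))))))

end CR.D7
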