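import Pool.Agent.Lib.MP_6f5d36_co.Glue7
import Pool.Agent.Lib.MP_6f5d36_co.D7.D090
import Pool.Agent.Lib.MP_6f5d36_co.D7.D091
import Pool.Agent.Lib.MP_6f5d36_co.D7.D092
import Pool.Agent.Lib.MP_6f5d36_co.D7.D093
import Pool.Agent.Lib.MP_6f5d36_co.D7.D094
import Pool.Agent.Lib.MP_6f5d36_co.D7.D095
import Pool.Agent.Lib.MP_6f5d36_co.D7.D096
import Pool.Agent.Lib.MP_6f5d36_co.D7.D097
import Pool.Agent.Lib.MP_6f5d36_co.D7.D098
import Pool.Agent.Lib.MP_6f5d36_co.D7.D099

/-!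
# MP_6f5d36_co : level 7 for the ranks 3319 to 3666
-/

set_option autoImplicit false
set_option maxRecDepth 100000

namespace CR.D7

theorem k_3319 : L7.RK 3319 3330 := L7.rk_of r_3319_3330 rfl (by norm_num)
theorem k_3330 : L7.RK 3330 3341 := L7.rk_of r_3330_3341 rfl (by norm_num)
theorem k_3341 : L7.RK 3341 3353 := L7.rk_of r_3341_3353 rfl (by norm_num)
theorem k_3353 : L7.RK 3353 3364 := L7.rk_of r_3353_3364 rfl (by norm_num)
theorem k_3364 : L7.RK 3364 3375 := L7.rk_of r_3364_3375 rfl (by norm_num)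
theorem k_3375 : L7.RK 3375 3386 := L7.rk_of r_3375_3386 rfl (by norm_num)
theorem k_3386 : L7.RK 3386 3397 := L7.rk_of r_3386_3397 rfl (by norm_num)
theorem k_3397 : L7.RK 3397 3409 := L7.rk_of r_3397_3409 rfl (by norm_num)
theorem k_3409 : L7.RK 3409 3420 := L7.rk_of r_3409_3420 rfl (by norm_num)
theorem k_3420 : L7.RK 3420 3431 := L7.rk_of r_3420_3431 rfl (by norm_num)
theorem k_3431 : L7.RK 3431 3442 := L7.rk_of r_3431_3442 rfl (by norm_num)
theorem k_3442 : L7.RK 3442 3453 := L7.rk_of r_3442_3453 rfl (by norm_num)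
theorem k_3453 : L7.RK 3453 3464 := L7.rk_of r_3453_3464 rfl (by norm_num)
theorem k_3464 : L7.RK 3464 3476 := L7.rk_of r_3464_3476 rfl (by norm_num)
theorem k_3476 : L7.RK 3476 3493 := L7.rk_of r_3476_3493 rfl (by norm_num)
theorem k_3493 : L7.RK 3493 3505 := L7.rk_of r_3493_3505 rfl (by norm_num)
theorem k_3505 : L7.RK 3505 3516 := L7.rk_of r_3505_3516 rfl (by norm_num)
theorem k_3516 : L7.RK 3516 3528 := L7.rk_of r_3516_3528 rfl (by norm_num)
theorem k_3528 : L7.RK 3528 3540 := L7.rk_of r_3528_3540 rfl (by norm_num)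
theorem k_3540 : L7.RK 3540 3552 := L7.rk_of r_3540_3552 rfl (by norm_num)
theorem k_3552 : L7.RK 3552 3563 := L7.rk_of r_3552_3563 rfl (by norm_num)
theorem k_3563 : L7.RK 3563 3575 := L7.rk_of r_3563_3575 rfl (by norm_num)
theorem k_3575 : L7.RK 3575 3586 := L7.rk_of r_3575_3586 rfl (by norm_num)
theorem k_3586 : L7.RK 3586 3598 := L7.rk_of r_3586_3598 rfl (by norm_num)
theorem k_3598 : L7.RK 3598 3609 := L7.rk_of r_3598_3609 rfl (by norm_num)
theorem k_3609 : L7.RK 3609 3620 := L7.rk_of r_3609_3620 rfl (by norm_num)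
theorem k_3620 : L7.RK 3620 3633 := L7.rk_of r_3620_3633 rfl (by norm_num)
theorem k_3633 : L7.RK 3633 3644 := L7.rk_of r_3633_3644 rfl (by norm_num)
theorem k_3644 : L7.RK 3644 3655 := L7.rk_of r_3644_3655 rfl (by norm_num)
theorem k_3655 : L7.RK 3655 3667 := L7.rk_of r_3655_3667 rfl (by norm_num)

theorem g_3319 : L7.RK 3319 3667 :=
  k_3319.trans (k_3330.trans (k_3341.trans (k_3353.trans (k_3364.trans (k_3375.trans
  (k_3386.trans (k_3397.trans (k_3409.trans (k_3420.trans (k_3431.trans (k_3442.trans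
  (k_3453.trans (k_3464.trans (k_3476.trans (k_3493.trans (k_3505.trans (k_3516.trans
  (k_3528.trans (k_3540.trans (k_3552.trans (k_3563.trans (k_3575.trans (k_3586.trans
  (k_3598.trans (k_3609.trans (k_3620.trans (k_3633.trans (k_3644.trans
  k_3655))))))))))))))))))))))))))))

end CR.D7
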