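import Pool.Agent.Lib.MP_6f5d36_co.Glue7
import Pool.Agent.Lib.MP_6f5d36_co.D7.D100
import Pool.Agent.Lib.MP_6f5d36_co.D7.D101
import Pool.Agent.Lib.MP_6f5d36_co.D7.D102
import Pool.Agent.Lib.MP_6f5d36_co.D7.D103
import Pool.Agent.Lib.MP_6f5d36_co.D7.D104
import Pool.Agent.Lib.MP_6f5d36_co.D7.D105
import Pool.Agent.Lib.MP_6f5d36_co.D7.D106
import Pool.Agent.Lib.MP_6f5d36_co.D7.D107
import Pool.Agent.Lib.MP_6f5d36_co.D7.D108
import Pool.Agent.Lib.MP_6f5d36_co.D7.D109

/-!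
# MP_6f5d36_co : level 7 for the ranks 3667 to 4032
-/

set_option autoImplicit false
set_option maxRecDepth 100000

namespace CR.D7

theorem k_3667 : L7.RK 3667 3678 := L7.rk_of r_3667_3678 rfl (by norm_num)
theorem k_3678 : L7.RK 3678 3690 := L7.rk_of r_3678_3690 rfl (by norm_num)
theorem k_3690 : L7.RK 3690 3702 := L7.rk_of r_3690_3702 rfl (by norm_num)
theorem k_3702 : L7.RK 3702 3714 := L7.rk_of r_3702_3714 rfl (by norm_num)
theorem k_3714 : L7.RK 3714 3725 := L7.rk_of r_3714_3725 rfl (by norm_num)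
theorem k_3725 : L7.RK 3725 3738 := L7.rk_of r_3725_3738 rfl (by norm_num)
theorem k_3738 : L7.RK 3738 3750 := L7.rk_of r_3738_3750 rfl (by norm_num)
theorem k_3750 : L7.RK 3750 3762 := L7.rk_of r_3750_3762 rfl (by norm_num)
theorem k_3762 : L7.RK 3762 3774 := L7.rk_of r_3762_3774 rfl (by norm_num)
theorem k_3774 : L7.RK 3774 3786 := L7.rk_of r_3774_3786 rfl (by norm_num)
theorem k_3786 : L7.RK 3786 3800 := L7.rk_of r_3786_3800 rfl (by norm_num)
theorem k_3800 : L7.RK 3800 3813 := L7.rk_of r_3800_3813 rfl (by norm_num)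
theorem k_3813 : L7.RK 3813 3825 := L7.rk_of r_3813_3825 rfl (by norm_num)
theorem k_3825 : L7.RK 3825 3837 := L7.rk_of r_3825_3837 rfl (by norm_num)
theorem k_3837 : L7.RK 3837 3848 := L7.rk_of r_3837_3848 rfl (by norm_num)
theorem k_3848 : L7.RK 3848 3861 := L7.rk_of r_3848_3861 rfl (by norm_num)
theorem k_3861 : L7.RK 3861 3872 := L7.rk_of r_3861_3872 rfl (by norm_num)
theorem k_3872 : L7.RK 3872 3884 := L7.rk_of r_3872_3884 rfl (by norm_num)
theorem k_3884 : L7.RK 3884 3896 := L7.rk_of r_3884_3896 rfl (by norm_num)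
theorem k_3896 : L7.RK 3896 3909 := L7.rk_of r_3896_3909 rfl (by norm_num)
theorem k_3909 : L7.RK 3909 3921 := L7.rk_of r_3909_3921 rfl (by norm_num)
theorem k_3921 : L7.RK 3921 3935 := L7.rk_of r_3921_3935 rfl (by norm_num)
theorem k_3935 : L7.RK 3935 3946 := L7.rk_of r_3935_3946 rfl (by norm_num)
theorem k_3946 : L7.RK 3946 3959 := L7.rk_of r_3946_3959 rfl (by norm_num)
theorem k_3959 : L7.RK 3959 3973 := L7.rk_of r_3959_3973 rfl (by norm_num)
theorem k_3973 : L7.RK 3973 3984 := L7.rk_of r_3973_3984 rfl (by norm_num)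
theorem k_3984 : L7.RK 3984 3996 := L7.rk_of r_3984_3996 rfl (by norm_num)
theorem k_3996 : L7.RK 3996 4008 := L7.rk_of r_3996_4008 rfl (by norm_num)
theorem k_4008 : L7.RK 4008 4020 := L7.rk_of r_4008_4020 rfl (by norm_num)
theorem k_4020 : L7.RK 4020 4033 := L7.rk_of r_4020_4033 rfl (by norm_num)

theorem g_3667 : L7.RK 3667 4033 :=
  k_3667.trans (k_3678.trans (k_3690.trans (k_3702.trans (k_3714.trans (k_3725.trans
  (k_3738.trans (k_3750.trans (k_3762.trans (k_3774.trans (k_3786.trans (k_3800.trans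
  (k_3813.trans (k_3825.trans (k_3837.trans (k_3848.trans (k_3861.trans (k_3872.trans
  (k_3884.trans (k_3896.trans (k_3909.trans (k_3921.trans (k_3935.trans (k_3946.trans
  (k_3959.trans (k_3973.trans (k_3984.trans (k_3996.trans (k_4008.trans
  k_4020))))))))))))))))))))))))))))

end CR.D7
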