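import Pool.Agent.Lib.MP_6f5d36_co.Glue7
import Pool.Agent.Lib.MP_6f5d36_co.D7.D110
import Pool.Agent.Lib.MP_6f5d36_co.D7.D111
import Pool.Agent.Lib.MP_6f5d36_co.D7.D112
import Pool.Agent.Lib.MP_6f5d36_co.D7.D113
import Pool.Agent.Lib.MP_6f5d36_co.D7.D114
import Pool.Agent.Lib.MP_6f5d36_co.D7.D115
import Pool.Agent.Lib.MP_6f5d36_co.D7.D116
import Pool.Agent.Lib.MP_6f5d36_co.D7.D117
import Pool.Agent.Lib.MP_6f5d36_co.D7.D118
import Pool.Agent.Lib.MP_6f5d36_co.D7.D119

/-!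
# MP_6f5d36_co : level 7 for the ranks 4033 to 4435
-/

set_option autoImplicit false
set_option maxRecDepth 100000

namespace CR.D7

theorem k_4033 : L7.RK 4033 4046 := L7.rk_of r_4033_4046 rfl (by norm_num)
theorem k_4046 : L7.RK 4046 4059 := L7.rk_of r_4046_4059 rfl (by norm_num)
theorem k_4059 : L7.RK 4059 4072 := L7.rk_of r_4059_4072 rfl (by norm_num)
theorem k_4072 : L7.RK 4072 4084 := L7.rk_of r_4072_4084 rfl (by norm_num)
theorem k_4084 : L7.RK 4084 4096 := L7.rk_of r_4084_4096 rfl (by norm_num)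
theorem k_4096 : L7.RK 4096 4108 := L7.rk_of r_4096_4108 rfl (by norm_num)
theorem k_4108 : L7.RK 4108 4121 := L7.rk_of r_4108_4121 rfl (by norm_num)
theorem k_4121 : L7.RK 4121 4133 := L7.rk_of r_4121_4133 rfl (by norm_num)
theorem k_4133 : L7.RK 4133 4149 := L7.rk_of r_4133_4149 rfl (by norm_num)
theorem k_4149 : L7.RK 4149 4162 := L7.rk_of r_4149_4162 rfl (by norm_num)
theorem k_4162 : L7.RK 4162 4173 := L7.rk_of r_4162_4173 rfl (by norm_num)
theorem k_4173 : L7.RK 4173 4186 := L7.rk_of r_4173_4186 rfl (by norm_num)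
theorem k_4186 : L7.RK 4186 4199 := L7.rk_of r_4186_4199 rfl (by norm_num)
theorem k_4199 : L7.RK 4199 4212 := L7.rk_of r_4199_4212 rfl (by norm_num)
theorem k_4212 : L7.RK 4212 4225 := L7.rk_of r_4212_4225 rfl (by norm_num)
theorem k_4225 : L7.RK 4225 4239 := L7.rk_of r_4225_4239 rfl (by norm_num)
theorem k_4239 : L7.RK 4239 4254 := L7.rk_of r_4239_4254 rfl (by norm_num)
theorem k_4254 : L7.RK 4254 4266 := L7.rk_of r_4254_4266 rfl (by norm_num)
theorem k_4266 : L7.RK 4266 4279 := L7.rk_of r_4266_4279 rfl (by norm_num)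
theorem k_4279 : L7.RK 4279 4293 := L7.rk_of r_4279_4293 rfl (by norm_num)
theorem k_4293 : L7.RK 4293 4306 := L7.rk_of r_4293_4306 rfl (by norm_num)
theorem k_4306 : L7.RK 4306 4321 := L7.rk_of r_4306_4321 rfl (by norm_num)
theorem k_4321 : L7.RK 4321 4336 := L7.rk_of r_4321_4336 rfl (by norm_num)
theorem k_4336 : L7.RK 4336 4352 := L7.rk_of r_4336_4352 rfl (by norm_num)
theorem k_4352 : L7.RK 4352 4367 := L7.rk_of r_4352_4367 rfl (by norm_num)
theorem k_4367 : L7.RK 4367 4382 := L7.rk_of r_4367_4382 rfl (by norm_num)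
theorem k_4382 : L7.RK 4382 4400 := L7.rk_of r_4382_4400 rfl (by norm_num)
theorem k_4400 : L7.RK 4400 4414 := L7.rk_of r_4400_4414 rfl (by norm_num)
theorem k_4414 : L7.RK 4414 4425 := L7.rk_of r_4414_4425 rfl (by norm_num)
theorem k_4425 : L7.RK 4425 4436 := L7.rk_of r_4425_4436 rfl (by norm_num)

theorem g_4033 : L7.RK 4033 4436 :=
  k_4033.trans (k_4046.trans (k_4059.trans (k_4072.trans (k_4084.trans (k_4096.trans
  (k_4108.trans (k_4121.trans (k_4133.trans (k_4149.trans (k_4162.trans (k_4173.trans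
  (k_4186.trans (k_4199.trans (k_4212.trans (k_4225.trans (k_4239.trans (k_4254.trans
  (k_4266.trans (k_4279.trans (k_4293.trans (k_4306.trans (k_4321.trans (k_4336.trans
  (k_4352.trans (k_4367.trans (k_4382.trans (k_4400.trans (k_4414.trans
  k_4425))))))))))))))))))))))))))))

end CR.D7
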