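import Pool.Agent.Lib.MP_6f5d36_co.Glue7
import Pool.Agent.Lib.MP_6f5d36_co.D7.D120
import Pool.Agent.Lib.MP_6f5d36_co.D7.D121
import Pool.Agent.Lib.MP_6f5d36_co.D7.D122
import Pool.Agent.Lib.MP_6f5d36_co.D7.D123

/-!
# MP_6f5d36_co : level 7 for the ranks 4436 to 4791
-/

set_option autoImplicit false
set_option maxRecDepth 100000

namespace CR.D7

theorem k_4436 : L7.RK 4436 4515 := L7.rk_of r_4436_4515 rfl (by norm_num)
theorem k_4515 : L7.RK 4515 4533 := L7.rk_of r_4515_4533 rfl (by norm_num)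
theorem k_4533 : L7.RK 4533 4550 := L7.rk_of r_4533_4550 rfl (by norm_num)
theorem k_4550 : L7.RK 4550 4584 := L7.rk_of r_4550_4584 rfl (by norm_num)
theorem k_4584 : L7.RK 4584 4615 := L7.rk_of r_4584_4615 rfl (by norm_num)
theorem k_4615 : L7.RK 4615 4638 := L7.rk_of r_4615_4638 rfl (by norm_num)
theorem k_4638 : L7.RK 4638 4655 := L7.rk_of r_4638_4655 rfl (by norm_num)
theorem k_4655 : L7.RK 4655 4728 := L7.rk_of r_4655_4728 rfl (by norm_num)
theorem k_4728 : L7.RK 4728 4792 := L7.rk_of r_4728_4792 rfl (by norm_num)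

theorem g_4436 : L7.RK 4436 4792 :=
  k_4436.trans (k_4515.trans (k_4533.trans (k_4550.trans (k_4584.trans (k_4615.trans
  (k_4638.trans (k_4655.trans k_4728)))))))

end CR.D7
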