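import Pool.Agent.Lib.MP_6f5d36_co.Ker7
import Pool.Agent.Lib.MP_6f5d36_co.RTab

/-!
# MP_6f5d36_co : check of the lists of the sixth points (kernel)
-/

set_option autoImplicit false
set_option maxRecDepth 100000

namespace CR.D7

theorem rt_1201 : L7.rtAll Tab.nr Tab.T5 Tab.E6 Tab.reps Tab.RT 4 1201 = true := by decide +kernel

end CR.D7
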